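import Mathlib
import Pool.Agent.H26.OpenMulB

namespace Pool.Agent.Results.MP_9cb16a_an.NotOpen

open Pool.Agent.H26.OpenMul Pointwise

theorem result : ∃ (A : Type) (_ : NormedCommRing A) (_ : NormedAlgebra ℂ A) (_ : CompleteSpace A),
    ‖(1 : A)‖ = 1 ∧
    TopologicalSpace.IsTopologicalBasis {U : Set (WeakDual.characterSpace ℂ A) | IsClopen U} ∧
    Dense (Submodule.span ℂ {e : A | e * e = e} : Set A) ∧
    ¬ IsOpenMap (fun p : A × A => p.1 * p.2) ∧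
    ¬ (∀ ε : ℝ, 0 < ε → ∃ δ : ℝ, 0 < δ ∧ ∀ a b : A, ‖a‖ ≤ 1 → ‖b‖ ≤ 1 →
      ∀ c ∈ Metric.ball (a * b) δ, ∃ x ∈ Metric.ball a ε, ∃ y ∈ Metric.ball b ε, x * y = c) := by
  have h1 : ‖(1 : A)‖ = 1 := norm_one (α := Cb)
  obtain ⟨a, b, ε, hε, hm⟩ := main
  refine ⟨A, inferInstance, inferInstance, inferInstance, h1, zero_dim dense_idem, dense_idem,
    fun ho => ?_, fun hu => ?_⟩
  · have h2 := ho.image_mem_nhds (x := (a, b))
      (prod_mem_nhds (Metric.ball_mem_nhds a hε) (Metric.ball_mem_nhds b hε))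
    obtain ⟨δ, hδ, h3⟩ := Metric.mem_nhds_iff.1 h2
    obtain ⟨⟨x, y⟩, ⟨hx, hy⟩, hxy⟩ := h3 (show a * b + ((δ / 2 : ℝ) : ℂ) • (1 : A) ∈ _ by
      rw [mem_ball_iff_norm, add_sub_cancel_left, norm_smul, h1, Complex.norm_real,
        Real.norm_of_nonneg (by linarith)]
      linarith)
    exact hm (δ / 2) (by linarith) x y hx hy hxy
  · set L : ℝ := ‖a‖ + ‖b‖ + 1 with hL
    have ha := norm_nonneg a
    have hb := norm_nonneg b
    have hL0 : 0 < L := by linarith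
    have hLc : (L : ℂ) ≠ 0 := by exact_mod_cast hL0.ne'
    have hn : ∀ z : A, ‖(L : ℂ)⁻¹ • z‖ = ‖z‖ / L := fun z => by
      rw [norm_smul, norm_inv, Complex.norm_real, Real.norm_of_nonneg hL0.le]; ring
    obtain ⟨δ, hδ, h2⟩ := hu (ε / L) (by positivity)
    obtain ⟨x, hx, y, hy, hxy⟩ := h2 ((L : ℂ)⁻¹ • a) ((L : ℂ)⁻¹ • b)
      (by rw [hn, div_le_one hL0]; linarith) (by rw [hn, div_le_one hL0]; linarith)
      ((L : ℂ)⁻¹ • a * (L : ℂ)⁻¹ • b + ((δ / 2 : ℝ) : ℂ) • (1 : A)) (by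
        rw [mem_ball_iff_norm, add_sub_cancel_left, norm_smul, h1, Complex.norm_real,
          Real.norm_of_nonneg (by linarith)]
        linarith)
    have hd : ∀ z w : A, z ∈ Metric.ball ((L : ℂ)⁻¹ • w) (ε / L) → dist ((L : ℂ) • z) w < ε := by
      intro z w hz
      rw [mem_ball_iff_norm] at hz
      have : z - (L : ℂ)⁻¹ • w = (L : ℂ)⁻¹ • ((L : ℂ) • z - w) := by
        rw [smul_sub, smul_smul, inv_mul_cancel₀ hLc, one_smul]
      rw [this, hn, div_lt_div_iff_of_pos_right hL0] at hz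
      rwa [dist_eq_norm]
    apply hm (L ^ 2 * (δ / 2)) (by positivity) _ _ (hd x a hx) (hd y b hy)
    rw [smul_mul_smul_comm, hxy, smul_mul_smul_comm, smul_add, smul_smul, smul_smul]
    congr 1
    · rw [show (L : ℂ) * L * ((L : ℂ)⁻¹ * (L : ℂ)⁻¹) = 1 by field_simp, one_smul]
    · congr 1; push_cast; ring

end Pool.Agent.Results.MP_9cb16a_an.NotOpen
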